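import Pool.Agent.helper61.DP.SpecA

/-!
# Project dp, module AC: arcs and alternation
-/

namespace DP

theorem AC_arc {x : V} {n : ℕ} {u v w : V} (hu : u ∈ bd x n) (hv : v ∈ bd x n) (hw : w ∈ bd x n) :
    onArc x n u v w ↔ ((pos x n u ≤ pos x n v ∧ pos x n u ≤ pos x n w ∧ pos x n w ≤ pos x n v) ∨
      (pos x n v < pos x n u ∧ (pos x n u ≤ pos x n w ∨ pos x n w ≤ pos x n v))) := by
  unfold onArc
  simp only [hu, hv, hw, true_and]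
  split_ifs <;> omega

/-- alternation in terms of positions -/
def AC_P (p q r s : ℤ) : Prop :=
  (((p ≤ r ∧ p ≤ q ∧ q ≤ r) ∨ (r < p ∧ (p ≤ q ∨ q ≤ r))) ∧
    ((r ≤ p ∧ r ≤ s ∧ s ≤ p) ∨ (p < r ∧ (r ≤ s ∨ s ≤ p)))) ∨
  (((p ≤ r ∧ p ≤ s ∧ s ≤ r) ∨ (r < p ∧ (p ≤ s ∨ s ≤ r))) ∧
    ((r ≤ p ∧ r ≤ q ∧ q ≤ p) ∨ (p < r ∧ (r ≤ q ∨ q ≤ p))))

theorem AC_alt {x : V} {n : ℕ} {a b c d : V} : alt x n a b c d ↔
    (a ∈ bd x n ∧ b ∈ bd x n ∧ c ∈ bd x n ∧ d ∈ bd x n) ∧ [a, b, c, d].Nodup ∧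
      AC_P (pos x n a) (pos x n b) (pos x n c) (pos x n d) := by
  unfold alt
  constructor
  · rintro ⟨⟨ha, hb, hc, hd⟩, h1, h2⟩
    refine ⟨⟨ha, hb, hc, hd⟩, h1, ?_⟩
    rw [AC_arc ha hc hb, AC_arc hc ha hd, AC_arc ha hc hd, AC_arc hc ha hb] at h2
    exact h2
  · rintro ⟨⟨ha, hb, hc, hd⟩, h1, h2⟩
    refine ⟨⟨ha, hb, hc, hd⟩, h1, ?_⟩
    rw [AC_arc ha hc hb, AC_arc hc ha hd, AC_arc ha hc hd, AC_arc hc ha hb]
    exact h2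

theorem AC_rot {p q r s : ℤ} (h : AC_P p q r s) (h1 : p ≠ q) (h2 : p ≠ r) (h3 : p ≠ s)
    (h4 : q ≠ r) (h5 : q ≠ s) (h6 : r ≠ s) : AC_P q r s p := by
  unfold AC_P at *
  omega

theorem AC_ref {p q r s : ℤ} (h : AC_P p q r s) (h1 : p ≠ q) (h2 : p ≠ r) (h3 : p ≠ s)
    (h4 : q ≠ r) (h5 : q ≠ s) (h6 : r ≠ s) : AC_P r q p s := by
  unfold AC_P at *
  omega

theorem AC_nodup {a b c d : V} : [a, b, c, d].Nodup ↔
    (a ≠ b ∧ a ≠ c ∧ a ≠ d) ∧ (b ≠ c ∧ b ≠ d) ∧ c ≠ d := by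
  simp

theorem AC (hPO : PO_stmt) : AC_stmt := by
  obtain ⟨-, hinj, -, -⟩ := hPO
  refine ⟨?_, ?_, ?_, ?_, ?_⟩
  · intro x n u v w hn hu hv hw huv
    have h1 : pos x n u ≠ pos x n v := fun h => huv (hinj x n u v hn hu hv h)
    rw [AC_arc hu hv hw, AC_arc hv hu hw]
    omega
  · intro x n u v w hn h1 h2 huv
    obtain ⟨hu, hv, hw, -⟩ := id h1
    rw [AC_arc hu hv hw] at h1
    rw [AC_arc hv hu hw] at h2
    have h0 : pos x n u ≠ pos x n v := fun h => huv (hinj x n u v hn hu hv h)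
    have h3 : pos x n w = pos x n u ∨ pos x n w = pos x n v := by omega
    rcases h3 with h3 | h3
    · exact Or.inl (hinj x n w u hn hw hu h3)
    · exact Or.inr (hinj x n w v hn hw hv h3)
  · intro x n a b c d hn h
    rw [AC_alt] at h ⊢
    obtain ⟨⟨ha, hb, hc, hd⟩, h1, h2⟩ := h
    rw [AC_nodup] at h1 ⊢
    obtain ⟨⟨k1, k2, k3⟩, ⟨k4, k5⟩, k6⟩ := h1
    refine ⟨⟨hb, hc, hd, ha⟩, ⟨⟨k4, k5, k1.symm⟩, ⟨k6, k2.symm⟩, k3.symm⟩, ?_⟩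
    exact AC_rot h2 (fun h => k1 (hinj x n _ _ hn ha hb h)) (fun h => k2 (hinj x n _ _ hn ha hc h))
      (fun h => k3 (hinj x n _ _ hn ha hd h)) (fun h => k4 (hinj x n _ _ hn hb hc h))
      (fun h => k5 (hinj x n _ _ hn hb hd h)) (fun h => k6 (hinj x n _ _ hn hc hd h))
  · intro x n a b c d hn h
    rw [AC_alt] at h ⊢
    obtain ⟨⟨ha, hb, hc, hd⟩, h1, h2⟩ := h
    rw [AC_nodup] at h1 ⊢
    obtain ⟨⟨k1, k2, k3⟩, ⟨k4, k5⟩, k6⟩ := h1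
    refine ⟨⟨hc, hb, ha, hd⟩, ⟨⟨k4.symm, k2.symm, k6⟩, ⟨k1.symm, k5⟩, k3⟩, ?_⟩
    exact AC_ref h2 (fun h => k1 (hinj x n _ _ hn ha hb h)) (fun h => k2 (hinj x n _ _ hn ha hc h))
      (fun h => k3 (hinj x n _ _ hn ha hd h)) (fun h => k4 (hinj x n _ _ hn hb hc h))
      (fun h => k5 (hinj x n _ _ hn hb hd h)) (fun h => k6 (hinj x n _ _ hn hc hd h))
  · intro x n a b c d hn ha hb hc hd h1 h2
    rw [AC_alt] at h2
    have h3 : ¬ AC_P (pos x n a) (pos x n b) (pos x n c) (pos x n d) :=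
      fun h => h2 ⟨⟨ha, hb, hc, hd⟩, h1, h⟩
    rw [AC_nodup] at h1
    obtain ⟨⟨k1, k2, k3⟩, ⟨k4, k5⟩, k6⟩ := h1
    have e1 : pos x n a ≠ pos x n b := fun h => k1 (hinj x n _ _ hn ha hb h)
    have e2 : pos x n a ≠ pos x n c := fun h => k2 (hinj x n _ _ hn ha hc h)
    have e3 : pos x n a ≠ pos x n d := fun h => k3 (hinj x n _ _ hn ha hd h)
    have e4 : pos x n b ≠ pos x n c := fun h => k4 (hinj x n _ _ hn hb hc h)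
    have e5 : pos x n b ≠ pos x n d := fun h => k5 (hinj x n _ _ hn hb hd h)
    have e6 : pos x n c ≠ pos x n d := fun h => k6 (hinj x n _ _ hn hc hd h)
    rw [AC_arc ha hc hb, AC_arc ha hc hd, AC_arc hc ha hb, AC_arc hc ha hd]
    unfold AC_P at h3
    omega

end DP
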