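import Pool.Agent.helper61.DP.SpecA

/-!
# Project dp, module FO: four arms give alternating points on the outer circle
-/

namespace DP

theorem FO_mono {W W' : Set V} (hW : W ⊆ W') {u v : V} (h : Con W u v) : Con W' u v := by
  obtain ⟨hu, h⟩ := h
  induction h with
  | refl => exact ⟨hW hu, Relation.ReflTransGen.refl⟩
  | tail _ h2 ih => exact ⟨ih.1, ih.2.tail ⟨h2.1, hW h2.2⟩⟩

theorem FO_cluster {B : Set V} {u v : V} (h : Con B u v) : Con {z | Con B u z} u v := by
  obtain ⟨hu, h⟩ := h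
  induction h with
  | refl => exact ⟨⟨hu, Relation.ReflTransGen.refl⟩, Relation.ReflTransGen.refl⟩
  | tail h1 h2 ih => exact ⟨ih.1, ih.2.tail ⟨h2.1, ⟨hu, h1.tail h2⟩⟩⟩

theorem FO (hGO : GO_stmt) (hAC : AC_stmt) : FO_stmt := by
  intro c x m n hx hm hmn h4
  obtain ⟨u₀, hu₀, v₀, hv₀, ⟨u', hu', hu⟩, ⟨v', hv', hv⟩, hne⟩ := h4
  -- the black cluster of `u'`
  have hne' : ¬ Conn c true (ann x m n) u' v' := by
    intro h
    have h1 : Con {w | w ∈ ann x m n ∧ c w = true} u₀ u' := hu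
    have h2 : Con {w | w ∈ ann x m n ∧ c w = true} u' v' := h
    have h3 : Con {w | w ∈ ann x m n ∧ c w = true} v₀ v' := hv
    exact hne ((h1.trans h2).trans h3.symm)
  set B : Set V := {w | w ∈ ann x m n ∧ c w = true} with hB
  have hu1 : Con B u' u₀ := Con.symm hu
  have hv1 : Con B v' v₀ := Con.symm hv
  set C : Set V := {z | Con B u' z} with hC
  have hCann : C ⊆ ann x m n := fun z hz => (Con.mem_right hz).1
  have hCB : ∀ z, z ∈ C → c z = true := fun z hz => (Con.mem_right hz).2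
  have hnbd : ∀ w, w ∈ nbd (ann x m n) C → w ∈ ann x m n ∧ c w = false := by
    rintro w ⟨h1, h2, z, hz, hzw⟩
    refine ⟨h1, ?_⟩
    by_contra h3
    have h4 : c w = true := by
      revert h3
      cases c w <;> simp
    exact h2 (Con.trans hz (Con.single (Con.mem_right hz) hzw ⟨h1, h4⟩))
  have hA : ∃ p ∈ bd x m, Con C u' p := ⟨u₀, hu₀, FO_cluster hu1⟩
  have hD : ∃ p ∈ bd x m, Con (ann x m n \ C) v' p := by
    refine ⟨v₀, hv₀, FO_mono ?_ (FO_cluster hv1)⟩
    intro z hz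
    refine ⟨(Con.mem_right hz).1, fun h => hne' ?_⟩
    exact Con.trans h (Con.symm hz)
  obtain ⟨⟨a, b, -, -, hb, -, -, p, hp, hbp⟩, ⟨a', b', -, -, hb', -, -, p', hp', hbp'⟩⟩ :=
    hGO x m n C u' v' hx hm hmn hCann hu' hv' hA hD
  have cu : c u' = true := (Con.mem_left hu1).2
  have cv : c v' = true := (Con.mem_left hv1).2
  have cb : c b = false := (hnbd b (Con.mem_left hbp)).2
  have cb' : c b' = false := (hnbd b' (Con.mem_left hbp')).2
  have huv : u' ≠ v' := by
    rintro h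
    exact hne' (h ▸ Con.refl (Con.mem_left hu1))
  have hub : u' ≠ b := by
    rintro rfl
    rw [cu] at cb
    exact absurd cb (by simp)
  have hub' : u' ≠ b' := by
    rintro rfl
    rw [cu] at cb'
    exact absurd cb' (by simp)
  have hvb : v' ≠ b := by
    rintro rfl
    rw [cv] at cb
    exact absurd cb (by simp)
  have hvb' : v' ≠ b' := by
    rintro rfl
    rw [cv] at cb'
    exact absurd cb' (by simp)
  have hbb : b ≠ b' := by
    intro h
    rw [← h] at hb'
    rcases hAC.2.1 x n u' v' b (by omega) hb hb' huv with h1 | h1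
    · exact hub h1.symm
    · exact hvb h1.symm
  refine ⟨u', b, v', b', ⟨⟨hu', hb.2.2.1, hv', hb'.2.2.1⟩, ?_, Or.inl ⟨hb, hb'⟩⟩, cu, cb, cv, cb',
    ⟨hu', u₀, hu₀, ?_⟩, ⟨hb.2.2.1, p, hp, ?_⟩, ⟨hv', v₀, hv₀, ?_⟩, ⟨hb'.2.2.1, p', hp', ?_⟩⟩
  · simp only [List.nodup_cons, List.mem_cons, List.not_mem_nil, or_false, not_or,
      not_false_eq_true, List.nodup_nil, and_true]
    exact ⟨⟨hub, huv, hub'⟩, ⟨hvb.symm, hbb⟩, hvb'⟩
  · rw [cu]
    exact hu1
  · rw [cb]
    exact FO_mono hnbd hbp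
  · rw [cv]
    exact hv1
  · rw [cb']
    exact FO_mono hnbd hbp'

end DP
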