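import Pool.Agent.helper95.DP.SpecH

/-!
# Project dp, module HLW: law of the configurations at two times and at one time
-/

namespace DP

open MeasureTheory ProbabilityTheory Filter Topology

theorem HLW_coin (a : Bool) : (PMF.uniformOfFintype Bool).toMeasure {a} = 2⁻¹ := by
  rw [PMF.toMeasure_apply_singleton _ _ (measurableSet_singleton a)]
  simp

theorem HLW_one (k : ℕ) (a : Bool) : nuU {u | u k = a} = 2⁻¹ := by
  have h1 : {u : ℕ → Bool | u k = a} = Set.pi (({k} : Finset ℕ) : Set ℕ) (fun _ => {a}) := by
    ext u
    simp
  unfold nuU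
  rw [h1, Measure.infinitePi_pi _ (fun i _ => measurableSet_singleton a), Finset.prod_singleton,
    HLW_coin]

theorem HLW_st (hHMS : HMS_stmt) (r : ℝ) : Measurable (fun x : Path => st x r) := by
  have h0 : Measurable (fun x : Path => (r, x)) := measurable_const.prodMk measurable_id
  have h1 := hHMS.2.comp h0
  exact h1

/-- Law of the state of one site at one time. -/
theorem HLW_law (hHMS : HMS_stmt) (r : ℝ) :
    nu.map (fun x : Path => st x r) = (PMF.uniformOfFintype Bool).toMeasure := by
  have key : ∀ a : Bool, (nu.map (fun x : Path => st x r)) {a} =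
      (PMF.uniformOfFintype Bool).toMeasure {a} := by
    intro a
    rw [Measure.map_apply (HLW_st hHMS r) (measurableSet_singleton a), HLW_coin]
    have h1 : nu ((fun x : Path => st x r) ⁻¹' {a}) =
        ∫⁻ x, nuU {u | u (cnt x r) = a} ∂nuT := by
      unfold nu
      rw [Measure.prod_apply ((HLW_st hHMS r) (measurableSet_singleton a))]
      rfl
    rw [h1]
    have h2 : ∀ x : ℕ → ℝ, nuU {u | u (cnt x r) = a} = 2⁻¹ := fun x => HLW_one _ a
    simp only [h2]
    rw [lintegral_const, measure_univ, mul_one]
  exact Measure.ext_of_singleton key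

theorem HLW (hHMS : HMS_stmt) (hHPR : HPR_stmt) : HLW_stmt := by
  constructor
  · intro s t hs hst
    have hm : Measurable (fun x : Path => (st x s, st x t)) :=
      (HLW_st hHMS s).prodMk (HLW_st hHMS t)
    have h1 := Measure.infinitePi_map_pi (fun _ : V => nu)
      (f := fun (_ : V) (x : Path) => (st x s, st x t)) (fun _ => hm)
    unfold PV PP
    rw [h1]
    congr 1
    funext v
    exact hHPR s t hs hst
  · intro t ht
    have h1 := Measure.infinitePi_map_pi (fun _ : V => nu)
      (f := fun (_ : V) (x : Path) => st x t) (fun _ => HLW_st hHMS t)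
    unfold PV P1 cfg
    rw [h1]
    congr 1
    funext v
    exact HLW_law hHMS t

end DP
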