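import Pool.Agent.helper95.DP.SpecH

/-!
# Project dp, module HPR: law of the states of one site at two times
-/

namespace DP

open MeasureTheory ProbabilityTheory Filter Topology

theorem HPR_coin (a : Bool) : (PMF.uniformOfFintype Bool).toMeasure {a} = 2⁻¹ := by
  rw [PMF.toMeasure_apply_singleton _ _ (measurableSet_singleton a)]
  simp

theorem HPR_one (k : ℕ) (a : Bool) : nuU {u | u k = a} = 2⁻¹ := by
  have h1 : {u : ℕ → Bool | u k = a} = Set.pi (({k} : Finset ℕ) : Set ℕ) (fun _ => {a}) := by
    ext u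
    simp
  unfold nuU
  rw [h1, Measure.infinitePi_pi _ (fun i _ => measurableSet_singleton a), Finset.prod_singleton,
    HPR_coin]

theorem HPR_two {k l : ℕ} (h : k ≠ l) (a : Bool × Bool) :
    nuU {u | (u k, u l) = a} = 2⁻¹ * 2⁻¹ := by
  have h1 : {u : ℕ → Bool | (u k, u l) = a} =
      Set.pi (({k, l} : Finset ℕ) : Set ℕ) (fun i => if i = k then {a.1} else {a.2}) := by
    ext u
    simp only [Set.mem_setOf_eq, Set.mem_pi, Finset.coe_insert, Finset.coe_singleton,
      Set.mem_insert_iff, Set.mem_singleton_iff, forall_eq_or_imp, forall_eq, if_true,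
      if_neg h.symm]
    constructor
    · rintro rfl
      exact ⟨rfl, rfl⟩
    · rintro ⟨h1, h2⟩
      exact Prod.ext h1 h2
  unfold nuU
  rw [h1, Measure.infinitePi_pi _ (fun i _ => by split_ifs <;> exact measurableSet_singleton _),
    Finset.prod_pair h, if_pos rfl, if_neg h.symm, HPR_coin, HPR_coin]

open Classical in
theorem HPR_nuU (k l : ℕ) (a : Bool × Bool) :
    nuU {u | (u k, u l) = a} = if k = l then (if a.1 = a.2 then 2⁻¹ else 0) else 2⁻¹ * 2⁻¹ := by
  by_cases h : k = l
  · subst h
    rw [if_pos rfl]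
    by_cases ha : a.1 = a.2
    · rw [if_pos ha, ← HPR_one k a.1]
      congr 1
      ext u
      simp only [Set.mem_setOf_eq]
      constructor
      · rintro rfl
        rfl
      · intro h1
        exact Prod.ext h1 (h1.trans ha)
    · rw [if_neg ha]
      have h1 : {u : ℕ → Bool | (u k, u k) = a} = ∅ := by
        ext u
        simp only [Set.mem_setOf_eq, Set.mem_empty_iff_false, iff_false]
        rintro rfl
        exact ha rfl
      rw [h1, measure_empty]
  · rw [if_neg h, HPR_two h]

theorem HPR (hHMS : HMS_stmt) (hHIN : HIN_stmt) : HPR_stmt := by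
  classical
  intro s t hs hst
  have hms : ∀ r : ℝ, Measurable (fun x : Path => st x r) := fun r => by
    have h0 : Measurable (fun x : Path => (r, x)) := measurable_const.prodMk measurable_id
    have h1 := hHMS.2.comp h0
    exact h1
  have hmc : ∀ r : ℝ, Measurable (fun x : ℕ → ℝ => cnt x r) := fun r => by
    have h0 : Measurable (fun x : ℕ → ℝ => (r, x)) := measurable_const.prodMk measurable_id
    have h1 := hHMS.1.comp h0
    exact h1
  have hmF : Measurable (fun x : Path => (st x s, st x t)) := (hms s).prodMk (hms t)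
  set e : ℝ := Real.exp (-(t - s)) with he
  have he0 : 0 < e := Real.exp_pos _
  have he1 : e ≤ 1 := Real.exp_le_one_iff.2 (by linarith)
  have hE : MeasurableSet {x : ℕ → ℝ | cnt x s = cnt x t} :=
    measurableSet_eq_fun (hmc s) (hmc t)
  have hP : nuT {x : ℕ → ℝ | cnt x s = cnt x t} = ENNReal.ofReal e := by
    rw [he, ← hHIN s t hs hst, ofReal_measureReal]
  have hPc : nuT {x : ℕ → ℝ | cnt x s = cnt x t}ᶜ = ENNReal.ofReal (1 - e) := by
    rw [prob_compl_eq_one_sub hE, hP, ENNReal.ofReal_sub _ he0.le, ENNReal.ofReal_one]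
  suffices key : ∀ a : Bool × Bool, (nu.map (fun x : Path => (st x s, st x t))) {a} =
      pairLaw (1 - e) {a} from Measure.ext_of_singleton key
  intro a
  rw [Measure.map_apply hmF (measurableSet_singleton a)]
  have h1 : nu ((fun x : Path => (st x s, st x t)) ⁻¹' {a}) =
      ∫⁻ x, nuU {u | (u (cnt x s), u (cnt x t)) = a} ∂nuT := by
    unfold nu
    rw [Measure.prod_apply (hmF (measurableSet_singleton a))]
    rfl
  have h2 : ∫⁻ x, nuU {u | (u (cnt x s), u (cnt x t)) = a} ∂nuT =
      (if a.1 = a.2 then 2⁻¹ else 0) * ENNReal.ofReal e +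
        (2⁻¹ * 2⁻¹) * ENNReal.ofReal (1 - e) := by
    rw [← lintegral_add_compl _ hE]
    congr 1
    · rw [setLIntegral_congr_fun (g := fun _ => if a.1 = a.2 then 2⁻¹ else 0) hE (fun x hx => ?_)]
      · rw [setLIntegral_const, hP]
      · exact (HPR_nuU _ _ a).trans (if_pos hx)
    · rw [setLIntegral_congr_fun (g := fun _ => 2⁻¹ * 2⁻¹) hE.compl (fun x hx => ?_)]
      · rw [setLIntegral_const, hPc]
      · exact (HPR_nuU _ _ a).trans (if_neg hx)
  rw [h1, h2]
  have h3 : pairLaw (1 - e) {a} = ENNReal.ofReal (wt (1 - e) a) := by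
    rw [← pairLaw_real, ofReal_measureReal]
  rw [h3]
  have hr : max 0 (min 1 (1 - e)) = 1 - e := by
    rw [min_eq_right (by linarith), max_eq_right (by linarith)]
  unfold wt
  rw [hr]
  have h4 : (2⁻¹ : ENNReal) = ENNReal.ofReal (1 / 2) := by
    rw [one_div, ENNReal.ofReal_inv_of_pos (by norm_num)]
    norm_num
  rw [h4]
  by_cases ha : a.1 = a.2
  · rw [if_pos ha, if_pos ha, ← ENNReal.ofReal_mul (by norm_num), ← ENNReal.ofReal_mul (by norm_num),
      ← ENNReal.ofReal_mul (by norm_num), ← ENNReal.ofReal_add (by positivity) (by nlinarith)]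
    congr 1
    ring
  · rw [if_neg ha, if_neg ha, zero_mul, zero_add, ← ENNReal.ofReal_mul (by norm_num),
      ← ENNReal.ofReal_mul (by norm_num)]
    congr 1
    ring

end DP
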