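import Pool.Agent.helper61.DP.SpecA

/-!
# Project dp, module PO: positions on a square circle
-/

namespace DP

theorem PO_bd {x u : V} {n : ℕ} (h : u ∈ bd x n) :
    (u.1 - x.1 = n ∧ -(n : ℤ) ≤ u.2 - x.2 ∧ u.2 - x.2 ≤ n) ∨
    (u.2 - x.2 = n ∧ -(n : ℤ) ≤ u.1 - x.1 ∧ u.1 - x.1 ≤ n) ∨
    (u.1 - x.1 = -(n : ℤ) ∧ -(n : ℤ) ≤ u.2 - x.2 ∧ u.2 - x.2 ≤ n) ∨
    (u.2 - x.2 = -(n : ℤ) ∧ -(n : ℤ) ≤ u.1 - x.1 ∧ u.1 - x.1 ≤ n) := by
  have h' : sd x u = n := h
  unfold sd at h'
  omega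

/-- The four sides of the circle and the positions. -/
theorem PO_cases {x u : V} {n : ℕ} (hn : 1 ≤ n) (h : u ∈ bd x n) :
    (u.1 - x.1 = n ∧ -(n : ℤ) < u.2 - x.2 ∧ u.2 - x.2 ≤ n ∧ pos x n u = n + (u.2 - x.2)) ∨
    (u.2 - x.2 = n ∧ -(n : ℤ) ≤ u.1 - x.1 ∧ u.1 - x.1 < n ∧ pos x n u = 3 * n - (u.1 - x.1)) ∨
    (u.1 - x.1 = -(n : ℤ) ∧ -(n : ℤ) ≤ u.2 - x.2 ∧ u.2 - x.2 < n ∧
      pos x n u = 5 * n - (u.2 - x.2)) ∨
    (u.2 - x.2 = -(n : ℤ) ∧ -(n : ℤ) < u.1 - x.1 ∧ u.1 - x.1 ≤ n ∧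
      pos x n u = 7 * n + (u.1 - x.1)) := by
  have h1 := PO_bd h
  unfold pos
  by_cases c1 : u.1 - x.1 = n ∧ -(n : ℤ) < u.2 - x.2
  · rw [if_pos c1]
    left
    omega
  rw [if_neg c1]
  by_cases c2 : u.2 - x.2 = n
  · rw [if_pos c2]
    right; left
    omega
  rw [if_neg c2]
  by_cases c3 : u.1 - x.1 = -(n : ℤ)
  · rw [if_pos c3]
    right; right; left
    omega
  rw [if_neg c3]
  right; right; right
  omega

theorem PO : PO_stmt := by
  refine ⟨?_, ?_, ?_, ?_⟩
  · intro x n u hn hu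
    rcases PO_cases hn hu with h | h | h | h <;> omega
  · intro x n u v hn hu hv h
    rcases PO_cases hn hu with h1 | h1 | h1 | h1 <;> rcases PO_cases hn hv with h2 | h2 | h2 | h2
    all_goals first
      | (exfalso; omega)
      | exact Prod.ext (by omega) (by omega)
  · intro x n p hn h1 h2
    by_cases c1 : p ≤ 2 * n
    · refine ⟨(x.1 + n, x.2 + (p - n)), ?_, ?_⟩
      · show sd x _ = n
        unfold sd
        omega
      · unfold pos
        rw [if_pos ⟨by simp only; omega, by simp only; omega⟩]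
        simp only
        omega
    by_cases c2 : p ≤ 4 * n
    · refine ⟨(x.1 + (3 * n - p), x.2 + n), ?_, ?_⟩
      · show sd x _ = n
        unfold sd
        omega
      · unfold pos
        rw [if_neg (by rintro ⟨c, -⟩; simp only at c; omega), if_pos (by simp only; omega)]
        simp only
        omega
    by_cases c3 : p ≤ 6 * n
    · refine ⟨(x.1 - n, x.2 + (5 * n - p)), ?_, ?_⟩
      · show sd x _ = n
        unfold sd
        omega
      · unfold pos
        rw [if_neg (by rintro ⟨c, -⟩; simp only at c; omega),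
          if_neg (by intro c; simp only at c; omega), if_pos (by simp only; omega)]
        simp only
        omega
    · refine ⟨(x.1 + (p - 7 * n), x.2 - n), ?_, ?_⟩
      · show sd x _ = n
        unfold sd
        omega
      · unfold pos
        rw [if_neg (by rintro ⟨-, c⟩; simp only at c; omega),
          if_neg (by intro c; simp only at c; omega),
          if_neg (by intro c; simp only at c; omega)]
        simp only
        omega
  · intro x n u v hn h
    obtain ⟨hu, hv, h⟩ := h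
    have key : (u.1 = v.1 ∧ (u.2 - v.2 = 1 ∨ v.2 - u.2 = 1)) ∨
        (u.2 = v.2 ∧ (u.1 - v.1 = 1 ∨ v.1 - u.1 = 1)) := by
      rcases PO_cases hn hu with h1 | h1 | h1 | h1 <;>
        rcases PO_cases hn hv with h2 | h2 | h2 | h2 <;> omega
    unfold Adj sd
    rcases key with ⟨k1, k2⟩ | ⟨k1, k2⟩
    · exact ⟨by omega, Or.inl k1⟩
    · exact ⟨by omega, Or.inr (Or.inl k1)⟩

end DP
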